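import Mathlib
import Pool.Agent.Q133.EdgeCoverPoly

set_option autoImplicit false

/-!
# The edge cover polynomial of a finite simple graph has at least minimum-degree many distinct roots
-/

open Polynomial

namespace Pool.Agent.Results.MP_a87573_co.DistinctRoots

/-- `S` is an edge covering of `G`: a set of edges of `G` such that every vertex of `G` is an
endpoint of at least one edge of `S`. -/
def IsEdgeCovering {V : Type*} (G : SimpleGraph V) (S : Finset (Sym2 V)) : Prop :=
  (S : Set (Sym2 V)) ⊆ G.edgeSet ∧ ∀ v : V, ∃ e ∈ S, v ∈ e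

/-- `e(G, i)`: the number of edge coverings of `G` with exactly `i` edges. -/
noncomputable def numEdgeCoverings {V : Type*} (G : SimpleGraph V) (i : ℕ) : ℕ :=
  {S : Finset (Sym2 V) | IsEdgeCovering G S ∧ S.card = i}.ncard

/-- The edge cover polynomial `E(G, x) = ∑_{i=0}^{m} e(G, i) x^i`, where `m` is the number of edges
of `G`, as a polynomial with complex coefficients. -/
noncomputable def edgeCoverPoly {V : Type*} (G : SimpleGraph V) : ℂ[X] :=
  ∑ i ∈ Finset.range (G.edgeSet.ncard + 1), C (numEdgeCoverings G i : ℂ) * X ^ i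

theorem coeff_edgeCoverPoly {V : Type*} (G : SimpleGraph V) (i : ℕ) :
    (edgeCoverPoly G).coeff i =
      if i < G.edgeSet.ncard + 1 then (numEdgeCoverings G i : ℂ) else 0 := by
  rw [edgeCoverPoly, finsetSum_coeff]
  simp only [coeff_C_mul, coeff_X_pow, mul_ite, mul_one, mul_zero]
  rw [Finset.sum_ite_eq]
  simp only [Finset.mem_range]

/-- **Theorem.** For every finite simple graph `G`, the edge cover polynomial `E(G, x)` has at least
`δ(G)` distinct complex roots. -/
theorem result {V : Type*} [Fintype V] (G : SimpleGraph V) [DecidableRel G.Adj] :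
    (G.minDegree : ℕ∞) ≤ {z : ℂ | (edgeCoverPoly G).eval z = 0}.encard := by
  classical
  rcases Nat.eq_zero_or_pos G.minDegree with h0 | hpos
  · rw [h0]; simp
  have hne : Nonempty V := by
    by_contra hcon
    rw [not_nonempty_iff] at hcon
    have := G.minDegree_of_subsingleton
    omega
  set δ := G.minDegree with hδ
  set E : Finset (Sym2 V) := G.edgeFinset with hE
  have hEm : G.edgeSet.ncard = E.card := by
    rw [hE, ← SimpleGraph.coe_edgeFinset, Set.ncard_coe_finset]
  set m := E.card with hm
  obtain ⟨v0, hv0⟩ := G.exists_minimal_degree_vertex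
  have hinc : ∀ v, (G.incidenceFinset v).card = G.degree v := fun v =>
    G.card_incidenceFinset_eq_degree v
  have hincE : ∀ v, G.incidenceFinset v ⊆ E := by
    intro v e he
    rw [SimpleGraph.mem_incidenceFinset] at he
    rw [hE, SimpleGraph.mem_edgeFinset]
    exact he.1
  have hδm : δ ≤ m := by
    rw [hδ, hv0, ← hinc v0]
    exact Finset.card_le_card (hincE v0)
  have hset : ∀ i, {S : Finset (Sym2 V) | IsEdgeCovering G S ∧ S.card = i} =
      (((E.powersetCard i).filter (fun S => ∀ v : V, ∃ e ∈ S, v ∈ e) :
        Finset (Finset (Sym2 V))) : Set (Finset (Sym2 V))) := by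
    intro i
    ext S
    simp only [IsEdgeCovering, Set.mem_setOf_eq, Finset.coe_filter, Finset.mem_powersetCard]
    constructor
    · rintro ⟨⟨h1, h2⟩, h3⟩
      refine ⟨⟨?_, h3⟩, h2⟩
      intro e he
      rw [hE, SimpleGraph.mem_edgeFinset]
      exact h1 he
    · rintro ⟨⟨h1, h3⟩, h2⟩
      refine ⟨⟨?_, h2⟩, h3⟩
      intro e he
      have := h1 he
      rwa [hE, SimpleGraph.mem_edgeFinset] at this
  have hnum : ∀ i, numEdgeCoverings G i =
      ((E.powersetCard i).filter (fun S => ∀ v : V, ∃ e ∈ S, v ∈ e)).card := by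
    intro i
    rw [numEdgeCoverings, hset, Set.ncard_coe_finset]
  -- large sets of edges are coverings
  have hA : ∀ i, i ≤ m → m - i < δ → numEdgeCoverings G i = m.choose i := by
    intro i him hi
    rw [hnum, Finset.filter_true_of_mem, Finset.card_powersetCard]
    intro S hS v
    rw [Finset.mem_powersetCard] at hS
    by_contra hcon
    push Not at hcon
    have hsub : G.incidenceFinset v ⊆ E \ S := by
      intro e he
      rw [Finset.mem_sdiff]
      refine ⟨hincE v he, fun heS => hcon e heS ?_⟩
      rw [SimpleGraph.mem_incidenceFinset] at he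
      exact he.2
    have h1 := Finset.card_le_card hsub
    rw [hinc, Finset.card_sdiff_of_subset hS.1, hS.2] at h1
    have h2 := G.minDegree_le_degree v
    omega
  have hB : numEdgeCoverings G (m - δ) < m.choose (m - δ) := by
    have hc : m.choose (m - δ) = (E.powersetCard (m - δ)).card :=
      (Finset.card_powersetCard _ _).symm
    rw [hnum, hc]
    apply Finset.card_lt_card
    rw [Finset.filter_ssubset]
    refine ⟨E \ G.incidenceFinset v0, ?_, ?_⟩
    · rw [Finset.mem_powersetCard]
      refine ⟨Finset.sdiff_subset, ?_⟩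
      rw [Finset.card_sdiff_of_subset (hincE v0), hinc, ← hv0]
    · intro hcon
      obtain ⟨e, he, hve⟩ := hcon v0
      rw [Finset.mem_sdiff] at he
      apply he.2
      rw [SimpleGraph.mem_incidenceFinset]
      refine ⟨?_, hve⟩
      have := he.1
      rwa [hE, SimpleGraph.mem_edgeFinset] at this
  set D : ℂ[X] := edgeCoverPoly G - (1 + X) ^ m with hD
  have hDc : ∀ i, i ≤ m → D.coeff i = (numEdgeCoverings G i : ℂ) - (m.choose i : ℂ) := by
    intro i hi
    rw [hD, coeff_sub, coeff_edgeCoverPoly, coeff_one_add_X_pow, hEm, if_pos (by omega)]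
  have hDc' : ∀ i, m < i → D.coeff i = 0 := by
    intro i hi
    rw [hD, coeff_sub, coeff_edgeCoverPoly, coeff_one_add_X_pow, hEm, if_neg (by omega),
      Nat.choose_eq_zero_of_lt hi]
    simp
  have h1 : D.coeff (m - δ) ≠ 0 := by
    rw [hDc _ (by omega)]
    intro hcon
    rw [sub_eq_zero] at hcon
    have : numEdgeCoverings G (m - δ) = m.choose (m - δ) := by exact_mod_cast hcon
    omega
  have h2 : D.natDegree ≤ m - δ := by
    rw [natDegree_le_iff_coeff_eq_zero]
    intro i hi
    rcases Nat.lt_or_ge m i with him | him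
    · exact hDc' i him
    · rw [hDc i him, hA i him (by omega), sub_self]
  obtain ⟨h3, h4⟩ := Q133.EdgeCover.distinct_roots (edgeCoverPoly G) D m δ hpos hδm
    (by rw [hD]; ring) h1 h2
  have h5 : {z : ℂ | (edgeCoverPoly G).eval z = 0} =
      (((edgeCoverPoly G).roots.toFinset : Finset ℂ) : Set ℂ) := by
    ext z
    simp only [Set.mem_setOf_eq, Finset.mem_coe, Multiset.mem_toFinset, mem_roots h3, IsRoot.def]
  rw [h5, Set.encard_coe_eq_coe_finsetCard]
  exact_mod_cast h4

end Pool.Agent.Results.MP_a87573_co.DistinctRoots
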